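import Pool.Agent.ThX.Aut

/-!
# Thompson's conjecture for the exceptional groups of Lie type `G_2`, `³D_4`, `F_4`, `E_6`, `²E_6`, `E_7`, `E_8`

Thompson's conjecture: every finite simple group `S` has a conjugacy class `C` with `C C = S`.  This file proves it for all exceptional groups of Lie type, over every finite field, except the Suzuki and Ree groups.

Let `X_n` be the Dynkin diagram with the nodes `0, …, n - 1` and the arrows `0 → 1`, `0 → 2`, `0 → 3`, `2 → 4`, `3 → 5`, `5 → 6`, `6 → 7` (as far as both ends are `< n`): `X_4 = D_4`, `X_6 = E_6`, `X_7 = E_7`, `X_8 = E_8`; the arrows lead away from the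
branch node `0`.  `G(K) = X_n(K)` is the universal Chevalley group of type `X_n` over the field `K` (Steinberg's presentation).  A permutation `σ` of the nodes which preserves the arrows acts on the roots and does not change the structure constants; for a
homomorphism `τ : K → K` the map `x_r(a) ↦ x_(σ r)(τ a)` gives an endomorphism of `G(K)` (theorem `automorphism`), and `T` is the group generated by the products `x_r(a) x_(σ r)(τ a) x_(σ σ r)(τ τ a) …` over the orbits of `σ` which it fixes: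

* `n = 6, 7, 8`, `σ = 1`, `τ = 1`: `E_6(K)`, `E_7(K)`, `E_8(K)`;
* `n = 6`, `σ` of order 2: `F_4(K)` (`τ = 1`), `²E_6(K)` (`τ` of order 2);
* `n = 4`, `σ` of order 3: `G_2(K)` (`τ = 1`), `³D_4(K)` (`τ` of order 3).

(For `n = 4` and `σ` of order 1 or 2 the groups `T` are classical groups; they are not considered here.)
-/

namespace Pool.Agent.Results.MP_3d54b6_al.AllExceptional

/-- The arrows of the Dynkin diagram `X_n`: `0 → 1`, `0 → 2`, `0 → 3`, `2 → 4`, `3 → 5`, `5 → 6`, `6 → 7`. -/
def Arrow {n : ℕ} (i j : Fin n) : Prop := ((i : ℕ), (j : ℕ)) ∈ [(0, 1), (0, 2), (0, 3), (2, 4), (3, 5), (5, 6), (6, 7)]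

instance {n : ℕ} (i j : Fin n) : Decidable (Arrow i j) := inferInstanceAs (Decidable (_ ∈ _))

/-- The vector `v` (coordinates with respect to the simple roots) is a root: `∑ v_i ^ 2 - ∑_(i → j) v_i v_j = 1`. -/
def IsRoot {n : ℕ} (v : Fin n → ℤ) : Prop := ∑ i, v i ^ 2 - ∑ i, ∑ j, (if Arrow i j then v i * v j else 0) = 1

/-- The roots of `X_n` (`n = 4`: 24, `n = 6`: 72, `n = 7`: 126, `n = 8`: 240 roots). -/
abbrev Root (n : ℕ) : Type := {v : Fin n → ℤ // IsRoot v}

/-- The negative of a root. -/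
def neg {n : ℕ} (r : Root n) : Root n := ⟨-r.1, by
  have h := r.2
  unfold IsRoot at h ⊢
  simp only [Pi.neg_apply, neg_sq, neg_mul_neg]
  exact h⟩

/-- The structure constants `ε(r, s) = ± 1`: `(-1)` to the power `∑ r_i s_i + ∑_(i → j) r_i s_j`. -/
def ε (K : Type) [Field K] {n : ℕ} (r s : Root n) : K := if Even (∑ i, r.1 i * s.1 i + ∑ i, ∑ j, if Arrow i j then r.1 i * s.1 j else 0) then 1 else -1

/-- The generator `x_r(a)`. -/
def X {K : Type} {n : ℕ} (r : Root n) (a : K) : FreeGroup (Root n × K) := FreeGroup.of (r, a)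

/-- `n_r(a) = x_r(a) x_(-r)(a⁻¹) x_r(a)` -/
def N {K : Type} [Field K] {n : ℕ} (r : Root n) (a : K) : FreeGroup (Root n × K) := X r a * X (neg r) a⁻¹ * X r a

/-- `h_r(a) = n_r(a) n_r(-1)` -/
def H {K : Type} [Field K] {n : ℕ} (r : Root n) (a : K) : FreeGroup (Root n × K) := N r a * N r (-1)

/-- Steinberg's relations: `x_r(a + b) = x_r(a) x_r(b)`; `[x_r(a), x_s(b)] = x_(r+s)(ε(r,s) a b)` if `r + s` is a root, and `= 1` if `r + s` is neither a root nor `0`; `h_r(a b) = h_r(a) h_r(b)` for `a, b ≠ 0`. -/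
inductive Steinberg (K : Type) [Field K] (n : ℕ) : FreeGroup (Root n × K) → Prop
  | add (r : Root n) (a b : K) : Steinberg K n (X r a * X r b * (X r (a + b))⁻¹)
  | sum (r s t : Root n) (h : t.1 = r.1 + s.1) (a b : K) : Steinberg K n (X r a * X s b * (X r a)⁻¹ * (X s b)⁻¹ * (X t (ε K r s * a * b))⁻¹)
  | comm (r s : Root n) (h0 : r.1 + s.1 ≠ 0) (h : ∀ t : Root n, t.1 ≠ r.1 + s.1) (a b : K) : Steinberg K n (X r a * X s b * (X r a)⁻¹ * (X s b)⁻¹)
  | torus (r : Root n) (a b : K) (ha : a ≠ 0) (hb : b ≠ 0) : Steinberg K n (H r a * H r b * (H r (a * b))⁻¹)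

/-- The universal Chevalley group of type `X_n` over `K`. -/
abbrev G (K : Type) [Field K] (n : ℕ) : Type := PresentedGroup {w : FreeGroup (Root n × K) | Steinberg K n w}

/-- The element `x_r(a)` of `G(K)`. -/
def x {K : Type} [Field K] {n : ℕ} (r : Root n) (a : K) : G K n := PresentedGroup.of (r, a)

/-- The automorphisms of the diagram: the permutations of the nodes which preserve the arrows. -/
abbrev Sym (n : ℕ) : Type := {σ : Equiv.Perm (Fin n) // ∀ i j, Arrow (σ i) (σ j) ↔ Arrow i j}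

private theorem isRoot_act {n : ℕ} (σ : Sym n) {v : Fin n → ℤ} (h : IsRoot v) : IsRoot fun i => v (σ.1.symm i) := ThX.isR_act σ h

/-- The action of `σ` on the roots (the simple root `i` goes to the simple root `σ(i)`). -/
def act {n : ℕ} (σ : Sym n) (r : Root n) : Root n := ⟨fun i => r.1 (σ.1.symm i), isRoot_act σ r.2⟩

/-- The length `k` of the orbit `r, σ(r), …, σ^(k-1)(r)` of the root `r`. -/
noncomputable def len {n : ℕ} (σ : Sym n) (r : Root n) : ℕ := Function.minimalPeriod (act σ) r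

/-- The product `x_r(a) x_(σ(r))(τ(a)) … x_(σ^(k-1)(r))(τ^(k-1)(a))` over the orbit of `r`. -/
noncomputable def y {K : Type} [Field K] {n : ℕ} (σ : Sym n) (τ : K →+* K) (r : Root n) (a : K) : G K n := ((List.range (len σ r)).map fun i => x ((act σ)^[i] r) (τ^[i] a)).prod

/-- The subgroup of `G(K)` generated by the products `x_r(a) x_(σ(r))(τ(a)) … x_(σ^(k-1)(r))(τ^(k-1)(a))` over the orbits of `σ` with `τ^k(a) = a`, where `k` is the length of the orbit of `r`. -/
def T (K : Type) [Field K] (n : ℕ) (σ : Sym n) (τ : K →+* K) : Subgroup (G K n) := Subgroup.closure {g | ∃ (r : Root n) (a : K), τ^[len σ r] a = a ∧ g = y σ τ r a}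

/-- The group `S` has a conjugacy class `C` with `C C = S`: there is an element `g` such that every element is a product of two conjugates of `g`. -/
def SquareOfClass (S : Type) [Group S] : Prop := ∃ g : S, ∀ z : S, ∃ x y : S, IsConj g x ∧ IsConj g y ∧ x * y = z

/-- Thompson's conjecture for the group `H / Z(H)`. -/
def Thompson {G : Type} [Group G] (H : Subgroup G) : Prop := SquareOfClass (H ⧸ Subgroup.center H)

/-- The generators satisfy the relations. -/
private theorem stX (K : Type) [Field K] (n : ℕ) : ThX.StX K n (fun (r : Root n) (a : K) => (PresentedGroup.of (r, a) : G K n)) := by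
  have h1 : ∀ w, Steinberg K n w → (PresentedGroup.mk {w : FreeGroup (Root n × K) | Steinberg K n w} w) = 1 := fun w hw =>
    PresentedGroup.one_of_mem hw
  refine ⟨fun r a b => ?_, fun r s t h a b => ?_, fun r s h0 h a b => ?_, fun r a b ha hb => ?_, ?_⟩
  · exact (mul_inv_eq_one.1 (h1 _ (Steinberg.add r a b))).symm
  · exact mul_inv_eq_one.1 (h1 _ (Steinberg.sum r s t h a b))
  · exact h1 _ (Steinberg.comm r s h0 h a b)
  · exact (mul_inv_eq_one.1 (h1 _ (Steinberg.torus r a b ha hb))).symm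
  · rw [eq_top_iff, ← PresentedGroup.closure_range_of]
    apply Subgroup.closure_mono
    rintro _ ⟨⟨r, a⟩, rfl⟩
    exact ⟨r, a, rfl⟩

private theorem T_eq (K : Type) [Field K] (n : ℕ) (σ : Sym n) (τ : K →+* K) : T K n σ τ = ThX.TX (fun (r : Root n) (a : K) => (PresentedGroup.of (r, a) : G K n)) σ τ := rfl

private theorem lift_eq (K : Type) [Field K] (n : ℕ) {f : Root n × K → G K n} (h : ThX.StX K n (fun (r : Root n) (a : K) => f (r, a))) (w : FreeGroup (Root n × K)) (hw : Steinberg K n w) : FreeGroup.lift f w = 1 := by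
  have h1 : ∀ r a, FreeGroup.lift f (X r a) = f (r, a) := fun r a => FreeGroup.lift_apply_of
  have h2 : ∀ r a, FreeGroup.lift f (N r a) = ThX.nX (fun (r : Root n) (a : K) => f (r, a)) r a := fun r a => by
    unfold N
    rw [map_mul, map_mul, h1, h1]
    rfl
  have h3 : ∀ r a, FreeGroup.lift f (H r a) = ThX.hX (fun (r : Root n) (a : K) => f (r, a)) r a := fun r a => by
    unfold H
    rw [map_mul, h2, h2]
    rfl
  cases hw with
  | add r a b =>
    rw [map_mul, map_mul, map_inv, h1, h1, h1, mul_inv_eq_one]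
    exact (h.add r a b).symm
  | sum r s t h0 a b =>
    rw [map_mul, map_mul, map_mul, map_mul, map_inv, map_inv, map_inv, h1, h1, h1, mul_inv_eq_one]
    exact h.sum r s t h0 a b
  | comm r s h0 h4 a b =>
    rw [map_mul, map_mul, map_mul, map_inv, map_inv, h1, h1]
    exact h.comm r s h0 h4 a b
  | torus r a b ha hb =>
    rw [map_mul, map_mul, map_inv, h3, h3, h3, mul_inv_eq_one]
    exact (h.tor r a b ha hb).symm

/-- `x_r(a) ↦ x_(σ(r))(τ(a))` extends to an endomorphism `φ` of `G(K)`; if `m` is the order of `σ` and `τ^m = 1` then `φ^m = 1`, and `φ` fixes every element of `T`. -/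
theorem automorphism (K : Type) [Field K] (n : ℕ) (hn : n = 4 ∨ n = 6 ∨ n = 7 ∨ n = 8) (σ : Sym n) (τ : K →+* K) (hτ : ∀ a, τ^[orderOf σ.1] a = a) (h4 : n = 4 → orderOf σ.1 = 3) :
    ∃ φ : G K n →* G K n, (∀ r a, φ (x r a) = x (act σ r) (τ a)) ∧ (∀ g, φ^[orderOf σ.1] g = g) ∧ ∀ g ∈ T K n σ τ, φ g = g := by
  have hs : ∀ b : K, ∃ a, τ a = b := fun b => by
    have h1 : 0 < orderOf σ.1 := orderOf_pos σ.1
    obtain ⟨m, hm⟩ := Nat.exists_eq_add_of_lt h1
    rw [Nat.zero_add] at hm
    have h2 := hτ b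
    rw [hm, Function.iterate_succ_apply'] at h2
    exact ⟨_, h2⟩
  let f : Root n × K → G K n := fun p => x (act σ p.1) (τ p.2)
  have h0 : ThX.StX K n (fun (r : Root n) (a : K) => f (r, a)) := ThX.stX_tw (stX K n) σ τ hs
  have h2 : ∀ r a, PresentedGroup.toGroup (lift_eq K n h0) (x r a) = x (act σ r) (τ a) := fun r a =>
    PresentedGroup.toGroup.of (f := f) (lift_eq K n h0) (x := (r, a))
  have h3 : ∀ (m : ℕ) (r : Root n) (a : K), (PresentedGroup.toGroup (lift_eq K n h0))^[m] (x r a) = x ((act σ)^[m] r) (τ^[m] a) := by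
    intro m
    induction m with
    | zero => exact fun r a => rfl
    | succ m ih =>
      intro r a
      rw [Function.iterate_succ_apply, h2, ih, Function.iterate_succ_apply, Function.iterate_succ_apply]
  refine ⟨PresentedGroup.toGroup (lift_eq K n h0), h2, fun g => ?_, fun g hg => ?_⟩
  · have h5 : ∀ m : ℕ, ∃ ψ : G K n →* G K n, ∀ g, ψ g = (PresentedGroup.toGroup (lift_eq K n h0))^[m] g := by
      intro m
      induction m with
      | zero => exact ⟨MonoidHom.id _, fun g => rfl⟩
      | succ m ih =>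
        obtain ⟨ψ, hψ⟩ := ih
        exact ⟨ψ.comp (PresentedGroup.toGroup (lift_eq K n h0)), fun g => hψ _⟩
    obtain ⟨ψ, hψ⟩ := h5 (orderOf σ.1)
    have h6 : ψ = MonoidHom.id (G K n) := PresentedGroup.ext fun p => by
      have h7 := h3 (orderOf σ.1) p.1 p.2
      rw [hτ] at h7
      have h8 : (act σ)^[orderOf σ.1] p.1 = p.1 := ThX.act_order σ p.1
      rw [h8] at h7
      exact (hψ _).trans h7
    rw [← hψ, h6]
    rfl
  · unfold T at hg
    induction hg using Subgroup.closure_induction with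
    | one => rw [map_one]
    | mul a b _ _ ha hb => rw [map_mul, ha, hb]
    | inv a _ ha => rw [map_inv, ha]
    | mem g hg =>
      obtain ⟨r, a, ha, rfl⟩ := hg
      exact ThX.fix_orb hn σ h4 (stX K n) τ h2 r a ha

/-- Thompson's conjecture for `E_6(K)`, `E_7(K)`, `E_8(K)` (`σ = 1`), `F_4(K)`, `²E_6(K)` (`n = 6`, `σ` of order 2), `G_2(K)` (`|K| > 2`) and `³D_4(K)` (`n = 4`, `σ` of order 3), for all finite fields `K`. -/
theorem result (K : Type) [Field K] [Finite K] (n : ℕ) (hn : n = 4 ∨ n = 6 ∨ n = 7 ∨ n = 8) (σ : Sym n) (τ : K →+* K) (hτ : ∀ a, τ^[orderOf σ.1] a = a)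
    (h4 : n = 4 → orderOf σ.1 = 3 ∧ 2 < Nat.card K) : Thompson (T K n σ τ) := by
  unfold Thompson SquareOfClass
  rw [T_eq]
  exact ThX.main hn σ τ hτ (fun h => ⟨(h4 h).1, Or.inr (h4 h).2⟩) (stX K n)

end Pool.Agent.Results.MP_3d54b6_al.AllExceptional
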