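import Pool.Agent.ThC.Main

/-!
# Thompson's conjecture for the classical groups of all forms

`Form K V` is a sesquilinear form `f` on `V` together with an involution `σ` of `K` (possibly trivial), a scalar `ε`
and a form parameter `Λ`.  It has the `ε`-hermitian form `F.h` and the values `f x x` modulo `Λ`, and `isom F` is
the group of the automorphisms of `V` which preserve both.  This is the usual uniform description of all classical
groups:
* `σ` not trivial: unitary groups (the condition on the values `f x x` follows from the condition on `F.h`),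
* `σ` trivial, `Λ = ⊤`: symplectic groups (`F.h` is alternating, there is no condition on the values `f x x`),
* `σ` trivial, `Λ = ⊥`: orthogonal groups (`f x x` is a quadratic form, `F.h` is its polar form).
-/

namespace Pool.Agent.Results.MP_3d54b6_al.Classical
open Module

/-- a sesquilinear form with a form parameter -/
structure Form (K V : Type) [Field K] [AddCommGroup V] [Module K V] where
  /-- the involution of `K`, possibly trivial -/
  σ : K →+* K
  σσ : ∀ a, σ (σ a) = a
  /-- the scalar; it is `1` or `-1` if `σ` is trivial -/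
  ε : K
  εε : ε * σ ε = 1
  /-- the form parameter -/
  Λ : AddSubgroup K
  Λ_ge : ∀ a, a - ε * σ a ∈ Λ
  Λ_le : ∀ a ∈ Λ, a = -(ε * σ a)
  Λ_mul : ∀ a ∈ Λ, ∀ c, c * a * σ c ∈ Λ
  /-- the form, `σ`-linear in the first variable and linear in the second variable -/
  f : V →ₛₗ[σ] V →ₗ[K] K

variable {K V : Type} [Field K] [AddCommGroup V] [Module K V]

/-- the `ε`-hermitian form of `F` -/
def Form.h (F : Form K V) (x y : V) : K := F.f x y + F.ε * F.σ (F.f y x)

/-- the form is nondegenerate -/
def Form.Nondeg (F : Form K V) : Prop := ∀ x, (∀ y, F.h x y = 0) → x = 0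

/-- the isometry group: the linear automorphisms which preserve `F.h` and the values `F.f x x` modulo `F.Λ` -/
def isom (F : Form K V) : Subgroup (V ≃ₗ[K] V) where
  carrier := {g | (∀ x y, F.h (g x) (g y) = F.h x y) ∧ ∀ x, F.f (g x) (g x) - F.f x x ∈ F.Λ}
  one_mem' := ⟨fun _ _ => rfl, fun x => by
    show F.f x x - F.f x x ∈ F.Λ
    rw [sub_self]
    exact F.Λ.zero_mem⟩
  mul_mem' := fun {g g'} h h' => ⟨fun x y => by
    show F.h (g (g' x)) (g (g' y)) = F.h x y
    rw [h.1, h'.1], fun x => by
    show F.f (g (g' x)) (g (g' x)) - F.f x x ∈ F.Λ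
    have := F.Λ.add_mem (h.2 (g' x)) (h'.2 x)
    rwa [sub_add_sub_cancel] at this⟩
  inv_mem' := fun {g} h => ⟨fun x y => by
    rw [← h.1 (g⁻¹ x) (g⁻¹ y)]
    show F.h (g (g.symm x)) (g (g.symm y)) = F.h x y
    rw [g.apply_symm_apply, g.apply_symm_apply], fun x => by
    have h1 := F.Λ.neg_mem (h.2 (g⁻¹ x))
    rw [neg_sub] at h1
    have e : g (g⁻¹ x) = x := g.apply_symm_apply x
    rwa [e] at h1⟩

/-- Thompson's property: some conjugacy class `C` satisfies `C * C = G` -/
def ClassSquare (G : Type) [Group G] : Prop :=
  ∃ g : G, ∀ z : G, ∃ x y : G, IsConj g x ∧ IsConj g y ∧ x * y = z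

/-- Thompson's conjecture holds for the simple classical groups of all nondegenerate forms over finite fields (all
forms in dimension at least 7, alternating forms in dimension at least 4, hermitian forms in dimension at least 3):
the commutator subgroup of the isometry group modulo its center has a conjugacy class `C` such that `C * C` is the
whole group. -/
theorem result (K : Type) [Field K] [Finite K] (V : Type) [AddCommGroup V] [Module K V]
    [FiniteDimensional K V] (F : Form K V) (hF : F.Nondeg)
    (hV : 7 ≤ finrank K V ∨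
      (F.Λ = ⊤ ∧ 4 ≤ finrank K V ∧ (finrank K V = 4 → 3 ≤ Nat.card K)) ∨
      ((∃ a, F.σ a ≠ a) ∧ 3 ≤ finrank K V ∧ (finrank K V = 3 → Nat.card K ≠ 4))) :
    ClassSquare (commutator (isom F) ⧸ Subgroup.center (commutator (isom F))) :=
  ThC.main_class F.σ F.σσ F.ε F.εε F.Λ F.Λ_ge F.Λ_le F.Λ_mul F.f hF (isom F)
    (fun _ => Iff.rfl) hV

end Pool.Agent.Results.MP_3d54b6_al.Classical
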