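import Pool.Agent.ThO3.EqC

/-!
# Thompson's conjecture for the Ree groups `²F_4(q)`

Thompson's conjecture: every finite simple group `G` has a conjugacy class `C` with `C C = G`.  This file proves it for the groups `²F_4(q)`, `q = 2 ^ (2 m + 1) ≥ 8`.  A finite field `K` has an endomorphism `θ` with `θ(θ(t)) ^ 2 = t` for all `t` if and only if
`|K|` is an odd power of two.  `²F_4(K)` is the subgroup of `E_6(K)` (given by Steinberg's presentation) generated by the root subgroups of the two simple roots of the twisted group and of their negatives.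
-/

namespace Pool.Agent.Results.MP_3d54b6_al.ReeGroups

/-- The vector `v = (d; m_1, …, m_6)` is a root: `m_1 + … + m_6 = 3 d` and `m_1 ^ 2 + … + m_6 ^ 2 = d ^ 2 + 2`. -/
def IsRoot (v : ℤ × (Fin 6 → ℤ)) : Prop := ∑ i, v.2 i = 3 * v.1 ∧ ∑ i, v.2 i ^ 2 = v.1 ^ 2 + 2

/-- The 72 roots of `E_6`. -/
abbrev Root : Type := {v : ℤ × (Fin 6 → ℤ) // IsRoot v}

/-- The negative of a root. -/
def neg (r : Root) : Root := ⟨-r.1, by
  obtain ⟨h1, h2⟩ := r.2
  refine ⟨?_, ?_⟩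
  · simp only [Prod.fst_neg, Prod.snd_neg, Pi.neg_apply, Finset.sum_neg_distrib, h1]
    ring
  · simp only [Prod.fst_neg, Prod.snd_neg, Pi.neg_apply, neg_sq, h2]⟩

/-- The generator `x_r(a)`. -/
def X {K : Type} (r : Root) (a : K) : FreeGroup (Root × K) := FreeGroup.of (r, a)

/-- `n_r(a) = x_r(a) x_(-r)(a⁻¹) x_r(a)` -/
def N {K : Type} [Field K] (r : Root) (a : K) : FreeGroup (Root × K) := X r a * X (neg r) a⁻¹ * X r a

/-- `h_r(a) = n_r(a) n_r(1)` -/
def H {K : Type} [Field K] (r : Root) (a : K) : FreeGroup (Root × K) := N r a * N r 1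

/-- Steinberg's relations for `E_6(K)`, `K` of characteristic two (no signs): `x_r(a + b) = x_r(a) x_r(b)`; `[x_r(a), x_s(b)] = x_(r+s)(a b)` if `r + s` is a root, and `= 1` if `r + s` is neither a root nor `0`; `h_r(a b) = h_r(a) h_r(b)` for `a, b ≠ 0`. -/
inductive Steinberg (K : Type) [Field K] : FreeGroup (Root × K) → Prop
  | add (r : Root) (a b : K) : Steinberg K (X r a * X r b * (X r (a + b))⁻¹)
  | sum (r s t : Root) (h : t.1 = r.1 + s.1) (a b : K) : Steinberg K (X r a * X s b * (X r a)⁻¹ * (X s b)⁻¹ * (X t (a * b))⁻¹)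
  | comm (r s : Root) (h0 : r.1 + s.1 ≠ 0) (h : ∀ t : Root, t.1 ≠ r.1 + s.1) (a b : K) : Steinberg K (X r a * X s b * (X r a)⁻¹ * (X s b)⁻¹)
  | torus (r : Root) (a b : K) (ha : a ≠ 0) (hb : b ≠ 0) : Steinberg K (H r a * H r b * (H r (a * b))⁻¹)

/-- The universal Chevalley group of type `E_6` over `K` (characteristic two). -/
abbrev E (K : Type) [Field K] : Type := PresentedGroup {w : FreeGroup (Root × K) | Steinberg K w}

/-- The element `x_r(a)` of `E_6(K)`. -/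
def x {K : Type} [Field K] (r : Root) (a : K) : E K := PresentedGroup.of (r, a)

/-- The simple roots of `E_6`: `a 0`, …, `a 4` are a chain, `a 5` is joined to `a 2`.  The simple roots of the subgroup `F_4(K)` are `a 5`, `a 2`, `{a 3, a 1}`, `{a 4, a 0}` (in this order, the first two are long); the simple roots of `²F_4(K)` are
`{a 5, {a 4, a 0}}` and `{a 2, {a 3, a 1}}`. -/
def a : Fin 6 → ℤ × (Fin 6 → ℤ) := ![(0, ![-1, 1, 0, 0, 0, 0]), (0, ![0, -1, 1, 0, 0, 0]), (0, ![0, 0, -1, 1, 0, 0]), (0, ![0, 0, 0, -1, 1, 0]), (0, ![0, 0, 0, 0, -1, 1]), (1, ![1, 1, 1, 0, 0, 0])]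

/-- The group `²F_4(K)`: generated by the elements `x_p(t) x_q(θ t) x_r(θ t)`, `(p, q, r) = ± (a 5, a 4, a 0)`, and `x_p(t) x_q(θ t) x_r(θ t) x_(p + q)(t θ t) x_(p + r)(t θ t)`, `(p, q, r) = ± (a 2, a 3, a 1)`. -/
def Ree (K : Type) [Field K] (θ : K →+* K) : Subgroup (E K) :=
  Subgroup.closure ({g | ∃ (s : ℤ) (p q r : Root) (t : K), (s = 1 ∨ s = -1) ∧ p.1 = s • a 5 ∧ q.1 = s • a 4 ∧ r.1 = s • a 0 ∧ g = x p t * x q (θ t) * x r (θ t)} ∪
    {g | ∃ (s : ℤ) (p q r u v : Root) (t : K), (s = 1 ∨ s = -1) ∧ p.1 = s • a 2 ∧ q.1 = s • a 3 ∧ r.1 = s • a 1 ∧ u.1 = p.1 + q.1 ∧ v.1 = p.1 + r.1 ∧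
      g = x p t * x q (θ t) * x r (θ t) * x u (t * θ t) * x v (t * θ t)})

/-- The group `S` has a conjugacy class `C` with `C C = S`: there is an element `g` such that every element is a product of two conjugates of `g`. -/
def SquareOfClass (S : Type) [Group S] : Prop := ∃ g : S, ∀ z : S, ∃ x y : S, IsConj g x ∧ IsConj g y ∧ x * y = z

private theorem ep_one {K : Type} [Field K] (h2 : (2 : K) = 0) (v w : ThE.Vec 6) : (ThK.ep K v w : K) = 1 := by
  have h1 : (-1 : Kˣ) = 1 := Units.ext (by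
    rw [Units.val_neg, Units.val_one]
    linear_combination -h2)
  rw [ThK.ep, h1, one_zpow, Units.val_one]

/-- The generators satisfy the relations. -/
private theorem stb {K : Type} [Field K] (h2 : (2 : K) = 0) : ThK.Stb K 6 (fun (r : Root) (a : K) => (PresentedGroup.of (r, a) : E K)) := by
  have h1 : ∀ w, Steinberg K w → (PresentedGroup.mk {w : FreeGroup (Root × K) | Steinberg K w} w) = 1 := fun w hw =>
    PresentedGroup.one_of_mem hw
  have hm : (-1 : K) = 1 := by linear_combination -h2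
  have hh : ∀ (r : Root) (a : K), ThK.hh (fun (r : Root) (a : K) => (PresentedGroup.of (r, a) : E K)) r a = PresentedGroup.mk {w : FreeGroup (Root × K) | Steinberg K w} (H r a) := by
    intro r a
    unfold ThK.hh
    rw [hm]
    rfl
  refine ⟨fun r a b => ?_, fun r s t h a b => ?_, fun r s h0 h a b => ?_, fun r a b ha hb => ?_, ?_⟩
  · exact (mul_inv_eq_one.1 (h1 _ (Steinberg.add r a b))).symm
  · rw [ep_one h2, one_mul]
    exact mul_inv_eq_one.1 (h1 _ (Steinberg.sum r s t h a b))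
  · exact h1 _ (Steinberg.comm r s h0 h a b)
  · rw [hh, hh, hh]
    exact (mul_inv_eq_one.1 (h1 _ (Steinberg.torus r a b ha hb))).symm
  · rw [eq_top_iff, ← PresentedGroup.closure_range_of]
    apply Subgroup.closure_mono
    rintro _ ⟨⟨r, a⟩, rfl⟩
    exact ⟨r, a, rfl⟩

open Pool.Agent.ThO2 Pool.Agent.ThO2.Q in
private theorem ray_odd {K : Type} [Field K] (θ : K →+* K) {i : Fin 16} (hi : ¬ (i : ℕ) % 2 = 0) (t : K) :
    eQ (fun (r : Root) (a : K) => (PresentedGroup.of (r, a) : E K)) θ i t = x (rR i) t * x (rS i) (θ t) * x (rB i) (θ t) := by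
  unfold eQ
  rw [if_neg hi, mul_one]
  rfl

open Pool.Agent.ThO2 Pool.Agent.ThO2.Q in
private theorem ray_even {K : Type} [Field K] (θ : K →+* K) {i : Fin 16} (hi : (i : ℕ) % 2 = 0) (t : K) :
    eQ (fun (r : Root) (a : K) => (PresentedGroup.of (r, a) : E K)) θ i t = x (rR i) t * x (rS i) (θ t) * x (rB i) (θ t) * x (rP i) (t * θ t) * x (rQ i) (t * θ t) := by
  unfold eQ
  rw [if_pos hi, ← mul_assoc]
  rfl

open Pool.Agent.ThO2 in
private theorem rays : ((rR 1).1 = (1 : ℤ) • a 5 ∧ (rS 1).1 = (1 : ℤ) • a 4 ∧ (rB 1).1 = (1 : ℤ) • a 0) ∧ ((rR 9).1 = (-1 : ℤ) • a 5 ∧ (rS 9).1 = (-1 : ℤ) • a 0 ∧ (rB 9).1 = (-1 : ℤ) • a 4) ∧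
    ((rR 8).1 = (1 : ℤ) • a 2 ∧ (rS 8).1 = (1 : ℤ) • a 3 ∧ (rB 8).1 = (1 : ℤ) • a 1) ∧ ((rR 0).1 = (-1 : ℤ) • a 2 ∧ (rS 0).1 = (-1 : ℤ) • a 1 ∧ (rB 0).1 = (-1 : ℤ) • a 3) ∧
    ((rP 8).1 = (rR 8).1 + (rS 8).1 ∧ (rQ 8).1 = (rR 8).1 + (rB 8).1 ∧ (rP 0).1 = (rR 0).1 + (rS 0).1 ∧ (rQ 0).1 = (rR 0).1 + (rB 0).1) := by
  decide

open Pool.Agent.ThO2 Pool.Agent.ThO2.Q in
/-- `²F_4(K)` is the group of the library. -/
private theorem Ree_eq {K : Type} [Field K] {θ : K →+* K} (hθ : ∀ t, θ (θ t) ^ 2 = t) : Ree K θ = sim (eQ (fun (r : Root) (a : K) => (PresentedGroup.of (r, a) : E K)) θ) := by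
  have hs := stb (Rt.two hθ)
  have c1 : ∀ (i : Fin 16) (a b : K), x (rS i) a * x (rB i) b = x (rB i) b * x (rS i) a := fun i a b => hs.commute (le_of_eq (bf_SB i).1.symm) a b
  have c2 : ∀ i : Fin 16, (i : ℕ) % 2 = 0 → ∀ a b : K, x (rP i) a * x (rQ i) b = x (rQ i) b * x (rP i) a := fun i hi a b => hs.commute (le_of_eq ((bf_SB i).2.1 hi).symm) a b
  obtain ⟨⟨r1, s1, b1⟩, ⟨r9, s9, b9⟩, ⟨r8, s8, b8⟩, ⟨r0, s0, b0⟩, p8, q8, p0, q0⟩ := rays
  have o1 : ¬ ((1 : Fin 16) : ℕ) % 2 = 0 := by decide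
  have o9 : ¬ ((9 : Fin 16) : ℕ) % 2 = 0 := by decide
  have o8 : ((8 : Fin 16) : ℕ) % 2 = 0 := by decide
  have o0 : ((0 : Fin 16) : ℕ) % 2 = 0 := by decide
  unfold Ree sim
  refine congrArg Subgroup.closure (Set.ext fun g => ⟨?_, ?_⟩)
  · rintro (⟨s, p, q, r, t, hs, hp, hq, hr, rfl⟩ | ⟨s, p, q, r, u, v, t, hs, hp, hq, hr, hu, hv, rfl⟩)
    · rcases hs with rfl | rfl
      · obtain rfl : p = rR 1 := Subtype.ext (hp.trans r1.symm)
        obtain rfl : q = rS 1 := Subtype.ext (hq.trans s1.symm)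
        obtain rfl : r = rB 1 := Subtype.ext (hr.trans b1.symm)
        exact ⟨t, Or.inl (ray_odd θ o1 t).symm⟩
      · obtain rfl : p = rR 9 := Subtype.ext (hp.trans r9.symm)
        obtain rfl : q = rB 9 := Subtype.ext (hq.trans b9.symm)
        obtain rfl : r = rS 9 := Subtype.ext (hr.trans s9.symm)
        refine ⟨t, Or.inr (Or.inl ?_)⟩
        rw [ray_odd θ o9, mul_assoc, mul_assoc, c1]
    · rcases hs with rfl | rfl
      · obtain rfl : p = rR 8 := Subtype.ext (hp.trans r8.symm)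
        obtain rfl : q = rS 8 := Subtype.ext (hq.trans s8.symm)
        obtain rfl : r = rB 8 := Subtype.ext (hr.trans b8.symm)
        obtain rfl : u = rP 8 := Subtype.ext (hu.trans p8.symm)
        obtain rfl : v = rQ 8 := Subtype.ext (hv.trans q8.symm)
        exact ⟨t, Or.inr (Or.inr (Or.inl (ray_even θ o8 t).symm))⟩
      · obtain rfl : p = rR 0 := Subtype.ext (hp.trans r0.symm)
        obtain rfl : q = rB 0 := Subtype.ext (hq.trans b0.symm)
        obtain rfl : r = rS 0 := Subtype.ext (hr.trans s0.symm)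
        obtain rfl : u = rQ 0 := Subtype.ext (hu.trans q0.symm)
        obtain rfl : v = rP 0 := Subtype.ext (hv.trans p0.symm)
        refine ⟨t, Or.inr (Or.inr (Or.inr ?_))⟩
        rw [ray_even θ o0, mul_assoc (x (rR 0) t), ← c1, ← mul_assoc (x (rR 0) t), mul_assoc _ (x (rQ 0) (t * θ t)), ← c2 0 o0, ← mul_assoc _ (x (rP 0) (t * θ t))]
  · rintro ⟨t, rfl | rfl | rfl | rfl⟩
    · exact Or.inl ⟨1, rR 1, rS 1, rB 1, t, Or.inl rfl, r1, s1, b1, ray_odd θ o1 t⟩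
    · refine Or.inl ⟨-1, rR 9, rB 9, rS 9, t, Or.inr rfl, r9, b9, s9, ?_⟩
      rw [ray_odd θ o9, mul_assoc, mul_assoc, c1]
    · exact Or.inr ⟨1, rR 8, rS 8, rB 8, rP 8, rQ 8, t, Or.inl rfl, r8, s8, b8, p8, q8, ray_even θ o8 t⟩
    · refine Or.inr ⟨-1, rR 0, rB 0, rS 0, rQ 0, rP 0, t, Or.inr rfl, r0, b0, s0, q0, p0, ?_⟩
      rw [ray_even θ o0, mul_assoc (x (rR 0) t) (x (rB 0) (θ t)), ← c1, ← mul_assoc (x (rR 0) t), mul_assoc _ (x (rQ 0) (t * θ t)), ← c2 0 o0, ← mul_assoc _ (x (rP 0) (t * θ t))]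

/-- Thompson's conjecture for the groups `²F_4(q)`, `q = |K| = 2 ^ (2 m + 1) > 2`. -/
theorem result (K : Type) [Field K] [Finite K] (hK : 2 < Nat.card K) (θ : K →+* K) (hθ : ∀ t, θ (θ t) ^ 2 = t) : SquareOfClass (Ree K θ) := by
  unfold SquareOfClass
  rw [Ree_eq hθ]
  exact Pool.Agent.ThO2.Q.mainQ hθ hK (stb (Pool.Agent.ThO2.Rt.two hθ))

end Pool.Agent.Results.MP_3d54b6_al.ReeGroups
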