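import Pool.Agent.Results.MP_3d54b6_al.Classical
import Pool.Agent.Results.MP_3d54b6_al.AllExceptional
import Pool.Agent.Results.MP_3d54b6_al.ReeGroups
import Pool.Agent.ThRee.Main
import Pool.Agent.ThA.Alt
import Pool.Agent.ThA.Psl

/-!
# Thompson's conjecture modulo the classification of the finite simple groups

Thompson's conjecture: every finite non-abelian simple group `G` has a conjugacy class `C` with `C C = G`.

* `families` (no hypothesis): this holds for all alternating groups and all simple groups of Lie type except the Tits group `²F_4(2)'`.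
* `result`: it holds for all finite non-abelian simple groups, under two hypotheses: the classification of the finite simple groups, and the conjecture for the 26 sporadic groups and the Tits group (which is known from their character tables).

The classical groups, the exceptional groups and the Ree groups `²F_4(q)` are those of the files `Classical`, `AllExceptional`, `ReeGroups`, with the same conditions.
-/

namespace Pool.Agent.Results.MP_3d54b6_al.Modulo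

open Matrix

/-- The group `G` has a conjugacy class `C` with `C C = G`: there is an element `g` such that every element is a product of two conjugates of `g`. -/
def SquareOfClass (G : Type) [Group G] : Prop := ∃ g : G, ∀ z : G, ∃ x y : G, IsConj g x ∧ IsConj g y ∧ x * y = z

/-- `G` is isomorphic to `H`. -/
def Iso (G H : Type) [Group G] [Group H] : Prop := Nonempty (G ≃* H)

/-- `G` is isomorphic to `H` modulo its center. -/
def IsoModCenter (G H : Type) [Group G] [Group H] : Prop := Nonempty (G ≃* H ⧸ Subgroup.center H)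

/-- The Suzuki group `²B_2(K) = Sz(K)`, `θ(θ(t)) ^ 2 = t` for all `t`: generated by the following unitriangular matrices (`t, d ∈ K`), diagonal matrices (`c ∈ K`, `c ≠ 0`) and the antidiagonal matrix. -/
def Suzuki (K : Type) [Field K] (θ : K →+* K) : Subgroup (SpecialLinearGroup (Fin 4) K) :=
  Subgroup.closure ({g | ∃ t d : K, g.1 = !![1, θ t, t * θ t + θ d, t * θ t ^ 2 + θ t * θ d + d; 0, 1, t, θ d; 0, 0, 1, θ t; 0, 0, 0, 1]} ∪
    {g | ∃ c : K, c ≠ 0 ∧ g.1 = !![c * θ c ^ 2, 0, 0, 0; 0, c, 0, 0; 0, 0, c⁻¹, 0; 0, 0, 0, (c * θ c ^ 2)⁻¹]} ∪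
    {g | g.1 = !![0, 0, 0, 1; 0, 0, 1, 0; 0, 1, 0, 0; 1, 0, 0, 0]})

/-- The Ree group `²G_2(K)`, `K` of characteristic `3`, `σ(σ(t)) = t ^ 3` for all `t`: generated by the following unitriangular matrices (`t ∈ K`), diagonal matrices (`k ∈ K`, `k ≠ 0`) and the antidiagonal matrix. -/
def ReeThree (K : Type) [Field K] (σ : K →+* K) : Subgroup (SpecialLinearGroup (Fin 7) K) :=
  Subgroup.closure (
    {g | ∃ t : K, g.1 = !![1, t, 0, 0, -t ^ 3 * σ t, -t ^ 3 * σ t ^ 2, t ^ 4 * σ t ^ 2; 0, 1, σ t, t * σ t, -t ^ 2 * σ t, 0, -t ^ 3 * σ t ^ 2; 0, 0, 1, t, -t ^ 2, 0, t ^ 3 * σ t;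
      0, 0, 0, 1, t, 0, 0; 0, 0, 0, 0, 1, -σ t, t * σ t; 0, 0, 0, 0, 0, 1, -t; 0, 0, 0, 0, 0, 0, 1]} ∪
    {g | ∃ t : K, g.1 = !![1, 0, -t, 0, -σ t, 0, -t * σ t; 0, 1, 0, t, 0, -t ^ 2, 0; 0, 0, 1, 0, 0, 0, σ t; 0, 0, 0, 1, 0, t, 0; 0, 0, 0, 0, 1, 0, t; 0, 0, 0, 0, 0, 1, 0; 0, 0, 0, 0, 0, 0, 1]} ∪
    {g | ∃ t : K, g.1 = !![1, 0, 0, -t, 0, -σ t, -t ^ 2; 0, 1, 0, 0, -t, 0, σ t; 0, 0, 1, 0, 0, t, 0; 0, 0, 0, 1, 0, 0, -t; 0, 0, 0, 0, 1, 0, 0; 0, 0, 0, 0, 0, 1, 0; 0, 0, 0, 0, 0, 0, 1]} ∪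
    {g | ∃ k : K, k ≠ 0 ∧ g.1 = diagonal ![k, σ k / k, k ^ 2 / σ k, 1, σ k / k ^ 2, k / σ k, k⁻¹]} ∪
    {g | g.1 = !![0, 0, 0, 0, 0, 0, -1; 0, 0, 0, 0, 0, -1, 0; 0, 0, 0, 0, -1, 0, 0; 0, 0, 0, -1, 0, 0, 0; 0, 0, -1, 0, 0, 0, 0; 0, -1, 0, 0, 0, 0, 0; -1, 0, 0, 0, 0, 0, 0]})

/-- The conditions on the form `F`: it is nondegenerate, and it has dimension at least `7`, or it is alternating of dimension at least `4` (without `Sp_4(2)`), or hermitian of dimension at least `3` (without `SU_3(2)`). -/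
def Admissible {K V : Type} [Field K] [AddCommGroup V] [Module K V] (F : Classical.Form K V) : Prop :=
  F.Nondeg ∧ (7 ≤ Module.finrank K V ∨ (F.Λ = ⊤ ∧ 4 ≤ Module.finrank K V ∧ (Module.finrank K V = 4 → 3 ≤ Nat.card K)) ∨
    ((∃ a, F.σ a ≠ a) ∧ 3 ≤ Module.finrank K V ∧ (Module.finrank K V = 3 → Nat.card K ≠ 4)))

/-- `G` is isomorphic to the commutator subgroup of the isometry group of `F` modulo its center. -/
def IsoClassical (G : Type) [Group G] {K V : Type} [Field K] [AddCommGroup V] [Module K V] (F : Classical.Form K V) : Prop :=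
  IsoModCenter G (commutator (Classical.isom F))

/-- The infinite families of finite non-abelian simple groups: `G` is isomorphic to an alternating group or to a simple group of Lie type. -/
inductive Family (G : Type) [Group G] : Prop
  /-- `A_n`, `n ≥ 5` -/
  | alternating (n : ℕ) (hn : 5 ≤ n) (e : Iso G (alternatingGroup (Fin n)))
  /-- `PSL_n(K)`, `n ≥ 2`, without `PSL_2(2)` and `PSL_2(3)` -/
  | linear (K : Type) [Field K] [Finite K] (n : ℕ) (hn : 2 ≤ n) (hK : n = 2 → 4 ≤ Nat.card K)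
      (e : IsoModCenter G (SpecialLinearGroup (Fin n) K))
  /-- the symplectic, unitary and orthogonal groups -/
  | classical (K : Type) [Field K] [Finite K] (V : Type) [AddCommGroup V] [Module K V] [FiniteDimensional K V] (F : Classical.Form K V) (hF : Admissible F) (e : IsoClassical G F)
  /-- `G_2(q)`, `q > 2`, and `³D_4(q)` (`n = 4`), `E_6(q)`, `F_4(q)`, `²E_6(q)` (`n = 6`), `E_7(q)`, `E_8(q)` -/
  | exceptional (K : Type) [Field K] [Finite K] (n : ℕ) (hn : n = 4 ∨ n = 6 ∨ n = 7 ∨ n = 8) (σ : AllExceptional.Sym n) (τ : K →+* K) (hτ : ∀ a, τ^[orderOf σ.1] a = a)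
      (h4 : n = 4 → orderOf σ.1 = 3 ∧ 2 < Nat.card K) (e : IsoModCenter G (AllExceptional.T K n σ τ))
  /-- `²B_2(q)`, `q = 2 ^ (2 m + 1) ≥ 8` -/
  | suzuki (K : Type) [Field K] [Finite K] (hK : 2 < Nat.card K) (θ : K →+* K) (hθ : ∀ t, θ (θ t) ^ 2 = t) (e : Iso G (Suzuki K θ))
  /-- `²G_2(q)`, `q = 3 ^ (2 m + 1) ≥ 27` -/
  | reeThree (K : Type) [Field K] [Finite K] (h3 : (3 : K) = 0) (hK : 3 < Nat.card K) (σ : K →+* K) (hσ : ∀ t, σ (σ t) = t ^ 3) (e : Iso G (ReeThree K σ))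
  /-- `²F_4(q)`, `q = 2 ^ (2 m + 1) ≥ 8` -/
  | ree (K : Type) [Field K] [Finite K] (hK : 2 < Nat.card K) (θ : K →+* K) (hθ : ∀ t, θ (θ t) ^ 2 = t) (e : Iso G (ReeGroups.Ree K θ))

/-- The orders of the 26 sporadic simple groups and of the Tits group `²F_4(2)'`. -/
def sporadicOrders : List ℕ := [
  /- M_11 -/ 2 ^ 4 * 3 ^ 2 * 5 * 11,
  /- M_12 -/ 2 ^ 6 * 3 ^ 3 * 5 * 11,
  /- M_22 -/ 2 ^ 7 * 3 ^ 2 * 5 * 7 * 11,
  /- M_23 -/ 2 ^ 7 * 3 ^ 2 * 5 * 7 * 11 * 23,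
  /- M_24 -/ 2 ^ 10 * 3 ^ 3 * 5 * 7 * 11 * 23,
  /- J_1 -/ 2 ^ 3 * 3 * 5 * 7 * 11 * 19,
  /- J_2 -/ 2 ^ 7 * 3 ^ 3 * 5 ^ 2 * 7,
  /- J_3 -/ 2 ^ 7 * 3 ^ 5 * 5 * 17 * 19,
  /- J_4 -/ 2 ^ 21 * 3 ^ 3 * 5 * 7 * 11 ^ 3 * 23 * 29 * 31 * 37 * 43,
  /- HS -/ 2 ^ 9 * 3 ^ 2 * 5 ^ 3 * 7 * 11,
  /- McL -/ 2 ^ 7 * 3 ^ 6 * 5 ^ 3 * 7 * 11,
  /- Suz -/ 2 ^ 13 * 3 ^ 7 * 5 ^ 2 * 7 * 11 * 13,
  /- Co_3 -/ 2 ^ 10 * 3 ^ 7 * 5 ^ 3 * 7 * 11 * 23,
  /- Co_2 -/ 2 ^ 18 * 3 ^ 6 * 5 ^ 3 * 7 * 11 * 23,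
  /- Co_1 -/ 2 ^ 21 * 3 ^ 9 * 5 ^ 4 * 7 ^ 2 * 11 * 13 * 23,
  /- He -/ 2 ^ 10 * 3 ^ 3 * 5 ^ 2 * 7 ^ 3 * 17,
  /- Fi_22 -/ 2 ^ 17 * 3 ^ 9 * 5 ^ 2 * 7 * 11 * 13,
  /- Fi_23 -/ 2 ^ 18 * 3 ^ 13 * 5 ^ 2 * 7 * 11 * 13 * 17 * 23,
  /- Fi_24' -/ 2 ^ 21 * 3 ^ 16 * 5 ^ 2 * 7 ^ 3 * 11 * 13 * 17 * 23 * 29,
  /- HN -/ 2 ^ 14 * 3 ^ 6 * 5 ^ 6 * 7 * 11 * 19,
  /- Ly -/ 2 ^ 8 * 3 ^ 7 * 5 ^ 6 * 7 * 11 * 31 * 37 * 67,
  /- Th -/ 2 ^ 15 * 3 ^ 10 * 5 ^ 3 * 7 ^ 2 * 13 * 19 * 31,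
  /- Ru -/ 2 ^ 14 * 3 ^ 3 * 5 ^ 3 * 7 * 13 * 29,
  /- O'N -/ 2 ^ 9 * 3 ^ 4 * 5 * 7 ^ 3 * 11 * 19 * 31,
  /- B -/ 2 ^ 41 * 3 ^ 13 * 5 ^ 6 * 7 ^ 2 * 11 * 13 * 17 * 19 * 23 * 31 * 47,
  /- M -/ 2 ^ 46 * 3 ^ 20 * 5 ^ 9 * 7 ^ 6 * 11 ^ 2 * 13 ^ 3 * 17 * 19 * 23 * 29 * 31 * 41 * 47 * 59 * 71,
  /- Tits -/ 2 ^ 11 * 3 ^ 3 * 5 ^ 2 * 13]

/-- The classification of the finite simple groups: a finite non-abelian simple group is in one of the families, or its order is the order of a sporadic group or of the Tits group. -/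
def Classification : Prop := ∀ (G : Type) [Group G] [Finite G], IsSimpleGroup G → (∃ a b : G, a * b ≠ b * a) → Family G ∨ Nat.card G ∈ sporadicOrders

/-- Thompson's conjecture for the sporadic groups and the Tits group (known from their character tables). -/
def Tables : Prop := ∀ (G : Type) [Group G] [Finite G], IsSimpleGroup G → Nat.card G ∈ sporadicOrders → SquareOfClass G

private theorem congr {G H : Type} [Group G] [Group H] (e : Iso G H) (h : SquareOfClass H) : SquareOfClass G := by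
  obtain ⟨e⟩ := e
  obtain ⟨g, hg⟩ := h
  refine ⟨e.symm g, fun z => ?_⟩
  obtain ⟨x, y, hx, hy, hxy⟩ := hg (e z)
  refine ⟨e.symm x, e.symm y, ?_, ?_, ?_⟩
  · exact e.symm.toMonoidHom.map_isConj hx
  · exact e.symm.toMonoidHom.map_isConj hy
  · rw [← map_mul, hxy, e.symm_apply_apply]

private theorem congr_mod {G H : Type} [Group G] [Group H] (e : IsoModCenter G H) (h : SquareOfClass (H ⧸ Subgroup.center H)) : SquareOfClass G := congr e h

private theorem suzuki_eq (K : Type) [Field K] (θ : K →+* K) : Suzuki K θ = ThO2.Sq θ := by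
  unfold Suzuki ThO2.Sq
  refine congrArg Subgroup.closure (Set.ext fun g => ⟨?_, ?_⟩)
  · rintro ((⟨t, d, h⟩ | ⟨c, hc, h⟩) | h)
    · exact Or.inl (Or.inl ⟨t, d, Subtype.ext h⟩)
    · refine Or.inr ⟨Units.mk0 c hc, Subtype.ext ?_⟩
      rw [h]
      simp [ThO2.tQ, ThO2.tu]
    · exact Or.inl (Or.inr (Subtype.ext h))
  · rintro ((⟨t, d, rfl⟩ | rfl) | ⟨b, rfl⟩)
    · exact Or.inl (Or.inl ⟨t, d, rfl⟩)
    · exact Or.inr rfl
    · refine Or.inl (Or.inr ⟨(b : K), b.ne_zero, ?_⟩)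
      simp [ThO2.tQ, ThO2.tu]

private theorem reeThree_eq (K : Type) [Field K] (σ : K →+* K) : ReeThree K σ = ThRee.Re σ := by
  unfold ReeThree ThRee.Re
  refine congrArg Subgroup.closure (Set.ext fun g => ⟨?_, ?_⟩)
  · rintro ((((⟨t, h⟩ | ⟨t, h⟩) | ⟨t, h⟩) | ⟨k, hk, h⟩) | h)
    · exact Or.inl (Or.inl (Or.inl (Or.inl ⟨t, Subtype.ext h⟩)))
    · exact Or.inl (Or.inl (Or.inl (Or.inr ⟨t, Subtype.ext h⟩)))
    · exact Or.inl (Or.inl (Or.inr ⟨t, Subtype.ext h⟩))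
    · exact Or.inl (Or.inr ⟨Units.mk0 k hk, Subtype.ext h⟩)
    · exact Or.inr (Subtype.ext h)
  · rintro ((((⟨t, rfl⟩ | ⟨t, rfl⟩) | ⟨t, rfl⟩) | ⟨k, rfl⟩) | rfl)
    · exact Or.inl (Or.inl (Or.inl (Or.inl ⟨t, rfl⟩)))
    · exact Or.inl (Or.inl (Or.inl (Or.inr ⟨t, rfl⟩)))
    · exact Or.inl (Or.inl (Or.inr ⟨t, rfl⟩))
    · exact Or.inl (Or.inr ⟨(k : K), k.ne_zero, rfl⟩)
    · exact Or.inr rfl

/-- Thompson's conjecture for the families: all alternating groups and all simple groups of Lie type except the Tits group.  (No hypothesis.) -/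
theorem families (G : Type) [Group G] (h : Family G) : SquareOfClass G := by
  cases h with
  | alternating n hn e => exact congr e (ThA.alt n hn)
  | linear K n hn hK e => exact congr_mod e (ThA.psl K n hn hK)
  | classical K V F hF e => exact congr_mod e (Classical.result K V F hF.1 hF.2)
  | exceptional K n hn σ τ hτ h4 e => exact congr_mod e (AllExceptional.result K n hn σ τ hτ h4)
  | suzuki K hK θ hθ e =>
    refine congr e ?_
    rw [suzuki_eq]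
    exact ThO2.suzuki hθ hK
  | reeThree K h3 hK σ hσ e =>
    refine congr e ?_
    rw [reeThree_eq]
    exact ThRee.ree h3 hσ hK
  | ree K hK θ hθ e => exact congr e (ReeGroups.result K hK θ hθ)

/-- Thompson's conjecture, under two hypotheses: the classification of the finite simple groups, and the conjecture for the 26 sporadic groups and the Tits group (known from their character tables). -/
theorem result (hC : Classification) (hT : Tables) : ∀ (G : Type) [Group G] [Finite G], IsSimpleGroup G → (∃ a b : G, a * b ≠ b * a) →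
    ∃ g : G, ∀ z : G, ∃ x y : G, IsConj g x ∧ IsConj g y ∧ x * y = z := by
  intro G _ _ hG hab
  rcases hC G hG hab with h | h
  · exact families G h
  · exact hT G hG h

end Pool.Agent.Results.MP_3d54b6_al.Modulo
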